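import Pool.Agent.H23.DZ.Targets

/-!
# F2: the functional equation in terms of absolute values
-/

set_option autoImplicit false

open Complex Set Filter Topology

namespace Pool.Agent.H51.DZ

open Pool.Agent.H23.GLM Pool.Agent.H23.GLH Pool.Agent.H23.DZ

variable {m : ℕ}

/-- The functional equation without poles at a point where everything is continuous. -/
lemma functional_at (π : LData m) : ∃ ε : ℂ, ‖ε‖ = 1 ∧ ∀ s : ℂ, ContinuousAt π.L s →
    ContinuousAt π.L (1 - (starRingEnd ℂ) s) →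
    π.L s * (starRingEnd ℂ) (archFactor π.μ (1 - (starRingEnd ℂ) s))⁻¹ =
      ε * (π.N : ℂ) ^ (1 / 2 - s) * (starRingEnd ℂ) (π.L (1 - (starRingEnd ℂ) s)) *
        (archFactor π.μ s)⁻¹ := by
  obtain ⟨ε, hε, hfe⟩ := π.functional
  refine ⟨ε, hε, fun s h1 h2 => ?_⟩
  have hN : (π.N : ℂ) ≠ 0 := by exact_mod_cast π.N_ne
  have hc : Continuous fun s : ℂ => 1 - (starRingEnd ℂ) s := continuous_const.sub continuous_conj
  have c1 : ContinuousAt (fun s : ℂ =>
      π.L s * (starRingEnd ℂ) (archFactor π.μ (1 - (starRingEnd ℂ) s))⁻¹) s :=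
    h1.mul (continuous_conj.comp ((continuous_inv_arch π.μ).comp hc)).continuousAt
  have c3 : ContinuousAt (fun s : ℂ => (starRingEnd ℂ) (π.L (1 - (starRingEnd ℂ) s))) s :=
    continuous_conj.continuousAt.comp
      (ContinuousAt.comp (f := fun s : ℂ => 1 - (starRingEnd ℂ) s) h2 hc.continuousAt)
  have c2 : ContinuousAt (fun s : ℂ => ε * (π.N : ℂ) ^ (1 / 2 - s) *
      (starRingEnd ℂ) (π.L (1 - (starRingEnd ℂ) s)) * (archFactor π.μ s)⁻¹) s := by
    refine ((continuousAt_const.mul ?_).mul c3).mul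
      (continuous_inv_arch π.μ).continuousAt
    exact ((continuous_const.sub continuous_id).const_cpow (Or.inl hN)).continuousAt
  have hd := dense_good π.μ
  set D : Set ℂ := {s : ℂ | archFactor π.μ s ≠ 0 ∧ archFactor π.μ (1 - (starRingEnd ℂ) s) ≠ 0}
    with hD
  have hne : (𝓝[D] s).NeBot := mem_closure_iff_nhdsWithin_neBot.mp (hd s)
  have t1 := Tendsto.mono_left c1 (nhdsWithin_le_nhds (s := D))
  have t2 := Tendsto.mono_left c2 (nhdsWithin_le_nhds (s := D))
  refine tendsto_nhds_unique t1 (t2.congr' ?_)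
  filter_upwards [self_mem_nhdsWithin] with s hs
  have h := hfe s hs.1 hs.2
  have hs1 := hs.1
  have hs2 : (starRingEnd ℂ) (archFactor π.μ (1 - (starRingEnd ℂ) s)) ≠ 0 := by
    rw [Ne, map_eq_zero]; exact hs.2
  rw [map_mul] at h
  rw [map_inv₀]
  generalize (π.N : ℂ) ^ (1 / 2 - s) = P at h ⊢
  field_simp
  linear_combination -h

lemma continuousAt_L (π : LData m) {s : ℂ} (hs : s ≠ 1) : ContinuousAt π.L s := by
  rcases π.regular with ⟨h, _⟩ | ⟨_, _, _, h⟩
  · exact h.continuous.continuousAt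
  · rw [h]
    exact (differentiableAt_riemannZeta hs).continuousAt

theorem normFE : NormFEStmt := by
  intro m π x t hx hxt
  obtain ⟨ε, hε, hfe⟩ := functional_at π
  set s : ℂ := 1 / 2 - x + t * I with hs
  have hs' : 1 - (starRingEnd ℂ) s = 1 / 2 + x + t * I := by
    rw [hs, map_add, map_sub, map_mul, conj_I, conj_ofReal, conj_ofReal, map_div₀, map_one,
      map_ofNat]
    ring
  have hre : s.re = 1 / 2 - x := by rw [hs]; simp
  have n1 : s ≠ 1 := by
    intro h
    have h1 := congrArg Complex.re h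
    rw [hre, one_re] at h1
    linarith
  have n2 : (1 / 2 + x + t * I : ℂ) ≠ 1 := by
    intro h
    have h1 := congrArg Complex.re h
    have h2 := congrArg Complex.im h
    have h1' : (1 / 2 + x + t * I : ℂ).re = 1 / 2 + x := by simp
    have h2' : (1 / 2 + x + t * I : ℂ).im = t := by simp
    rw [h1', one_re] at h1
    rw [h2', one_im] at h2
    rcases hxt with h3 | h3
    · exact h3 (by linarith)
    · exact h3 h2
  have h := hfe s (continuousAt_L π n1) (by rw [hs']; exact continuousAt_L π n2)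
  rw [hs'] at h
  set z : Fin m → ℂ := fun j => 1 / 2 + t * I - π.μ j with hz
  have hzre : ∀ j, 0 ≤ (z j).re := by
    intro j
    have := π.re_μ_lt j
    simp [hz]
    linarith
  have e1 : ∀ j, 1 / 2 + x + t * I - π.μ j = z j + x := fun j => by rw [hz]; ring
  have e2 : ∀ j, s - π.μ j = z j - x := fun j => by rw [hz, hs]; ring
  have hne : archFactor π.μ (1 / 2 + x + t * I) ≠ 0 := by
    rw [archFactor_ne_zero_iff]
    intro j
    rw [e1]
    refine Gammaℝ_ne_zero_of_re_pos ?_
    have := hzre j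
    simp
    linarith
  have hnorm := congrArg norm h
  rw [norm_mul, RCLike.norm_conj, norm_mul, norm_mul, norm_mul, RCLike.norm_conj, hε, one_mul,
    norm_inv] at hnorm
  have hpos : 0 < ‖archFactor π.μ (1 / 2 + x + t * I)‖ := norm_pos_iff.mpr hne
  have hN : ‖(π.N : ℂ) ^ (1 / 2 - s)‖ = (π.N : ℝ) ^ x := by
    rw [Complex.norm_natCast_cpow_of_pos (Nat.pos_of_ne_zero π.N_ne)]
    congr 1
    simp [hs]
  rw [hN] at hnorm
  have h2 : ‖π.L s‖ = (π.N : ℝ) ^ x * ‖π.L (1 / 2 + x + t * I)‖ *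
      (‖archFactor π.μ (1 / 2 + x + t * I)‖ * ‖(archFactor π.μ s)⁻¹‖) := by
    have h5 : ‖π.L s‖ = (‖π.L s‖ * ‖archFactor π.μ (1 / 2 + x + t * I)‖⁻¹) *
        ‖archFactor π.μ (1 / 2 + x + t * I)‖ := by
      rw [inv_mul_cancel_right₀ hpos.ne']
    rw [h5, hnorm]
    ring
  have h3 : ‖archFactor π.μ (1 / 2 + x + t * I)‖ * ‖(archFactor π.μ s)⁻¹‖ =
      ∏ j, ‖ratio (z j) x‖ := by
    rw [archFactor, archFactor, ← Finset.prod_inv_distrib, norm_prod, norm_prod,
      ← Finset.prod_mul_distrib]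
    refine Finset.prod_congr rfl fun j _ => ?_
    rw [← norm_mul, e1, e2, ratio]
  rw [h2, h3]
  ring

end Pool.Agent.H51.DZ
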