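import Pool.Agent.H23.DZ.Targets

/-!
# F6: reflection with a lower bound for the Gamma quotient
-/

set_option autoImplicit false

open Complex Set

namespace Pool.Agent.H51.DZ

open Pool.Agent.H23.GLM Pool.Agent.H23.GLH Pool.Agent.H23.DZ

/-- Pigeonhole: some point of `[r₀, 2 r₀]` is at distance at least `r₀ / (4 (m + 1))` from each of
`m` given points. -/
lemma exists_far (m : ℕ) (c : Fin m → ℝ) (r₀ : ℝ) (hr : 0 < r₀) :
    ∃ r : ℝ, r₀ ≤ r ∧ r ≤ 2 * r₀ ∧ ∀ j, r₀ / (4 * (m + 1)) ≤ |c j - r| := by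
  by_contra hcon
  push Not at hcon
  have hm : (0:ℝ) < m + 1 := by positivity
  set cand : Fin (m + 1) → ℝ := fun i => r₀ * (1 + (i : ℕ) / (m + 1)) with hcand
  have h1 : ∀ i : Fin (m + 1), ∃ j, |c j - cand i| < r₀ / (4 * (m + 1)) := by
    intro i
    refine hcon (cand i) ?_ ?_
    · have : (0:ℝ) ≤ (i : ℕ) / (m + 1) := by positivity
      simp only [hcand]
      nlinarith
    · have : ((i : ℕ) : ℝ) / (m + 1) ≤ 1 := by
        rw [div_le_one hm]
        have := i.isLt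
        have h2 : ((i : ℕ) : ℝ) < ((m + 1 : ℕ) : ℝ) := by exact_mod_cast this
        push_cast at h2
        linarith
      simp only [hcand]
      nlinarith
  choose g hg using h1
  obtain ⟨a, b, hab, hgab⟩ := Fintype.exists_ne_map_eq_of_card_lt g (by simp)
  have ha := hg a
  have hb := hg b
  rw [hgab] at ha
  have h2 : |cand a - cand b| < r₀ / (2 * (m + 1)) := by
    have h3 : |cand a - cand b| ≤ |c (g b) - cand a| + |c (g b) - cand b| := by
      have : cand a - cand b = -(c (g b) - cand a) + (c (g b) - cand b) := by ring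
      rw [this]
      refine (abs_add_le _ _).trans ?_
      rw [abs_neg]
    have h4 : r₀ / (2 * (m + 1)) = r₀ / (4 * (m + 1)) + r₀ / (4 * (m + 1)) := by
      field_simp
      ring
    linarith
  have h5 : cand a - cand b = r₀ / (m + 1) * (((a : ℕ) : ℝ) - ((b : ℕ) : ℝ)) := by
    simp only [hcand]
    field_simp
    ring
  have h6 : (1:ℝ) ≤ |((a : ℕ) : ℝ) - ((b : ℕ) : ℝ)| := by
    have h7 : ((a : ℕ) : ℤ) - ((b : ℕ) : ℤ) ≠ 0 := by
      intro h
      apply hab
      ext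
      omega
    have h8 := Int.one_le_abs h7
    have h9 : ((1 : ℤ) : ℝ) ≤ ((|((a : ℕ) : ℤ) - ((b : ℕ) : ℤ)| : ℤ) : ℝ) := by
      exact_mod_cast h8
    push_cast at h9
    exact h9
  rw [h5, abs_mul, abs_of_pos (by positivity)] at h2
  have h7 : r₀ / (2 * (m + 1)) = r₀ / (m + 1) / 2 := by
    field_simp
  rw [h7] at h2
  have h8 : 0 < r₀ / (m + 1) := by positivity
  nlinarith

theorem refl_of (h1 : RatioLowerStmt) (h2 : NormFEStmt) : ReflStmt := by
  intro m r₀ hr₀ hr₁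
  have hm : (0:ℝ) < 4 * (m + 1) := by positivity
  obtain ⟨c, hc, hlow⟩ := h1 1 (r₀ / (4 * (m + 1))) (by positivity)
  refine ⟨max 1 ((c / 2) ^ m)⁻¹, le_max_left _ _, fun π => ?_⟩
  obtain ⟨r, hr1, hr2, hr3⟩ := exists_far m (fun j => 1 / 2 - (π.μ j).re) r₀ hr₀
  refine ⟨r, hr1, hr2, fun t => ?_⟩
  have hrpos : 0 < r := by linarith
  have hfe := h2 m π r t hrpos (Or.inl (by linarith))
  have hQ1 : 0 < π.Q t := by
    unfold LData.Q
    have := π.one_le_N
    have h3 : 0 < ∏ j, (1 + ‖(t : ℂ) * I - π.μ j‖) :=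
      Finset.prod_pos fun j _ => by positivity
    nlinarith
  have hprod : (c / 2) ^ m * (∏ j, (1 + ‖(t : ℂ) * I - π.μ j‖)) ^ r ≤
      ∏ j, ‖ratio (1 / 2 + t * I - π.μ j) r‖ := by
    rw [← Real.finsetProd_rpow _ _ fun j _ => by positivity]
    have e : (c / 2) ^ m = ∏ _j : Fin m, (c / 2) := by
      rw [Finset.prod_const, Finset.card_univ, Fintype.card_fin]
    rw [e, ← Finset.prod_mul_distrib]
    refine Finset.prod_le_prod (fun j _ => by positivity) fun j _ => ?_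
    set z : ℂ := 1 / 2 + t * I - π.μ j with hz
    have hzre : z.re = 1 / 2 - (π.μ j).re := by rw [hz]; simp
    have hzpos : 0 < z.re := by
      rw [hzre]
      have := π.re_μ_lt j
      linarith
    have h3 := hlow r z hrpos (by linarith) hzpos.le (by
      intro n
      rcases Nat.eq_zero_or_pos n with hn | hn
      · subst hn
        have := hr3 j
        simp only [Nat.cast_zero, mul_zero, add_zero]
        rw [hzre]
        exact this
      · have hn' : (1:ℝ) ≤ n := by exact_mod_cast hn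
        have h5 : r₀ / (4 * (m + 1)) ≤ 1 := by
          rw [div_le_one hm]
          have : (0:ℝ) ≤ m := by positivity
          linarith
        refine h5.trans ?_
        refine le_trans ?_ (le_abs_self _)
        linarith)
    refine le_trans ?_ h3
    have h4 : (1 + ‖(t : ℂ) * I - π.μ j‖) / 2 ≤ 1 + ‖z‖ := by
      have : ‖(t : ℂ) * I - π.μ j‖ ≤ ‖z‖ + 1 / 2 := by
        have e2 : (t : ℂ) * I - π.μ j = z - 1 / 2 := by rw [hz]; ring
        rw [e2]
        refine (norm_sub_le _ _).trans ?_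
        norm_num
      have := norm_nonneg z
      linarith
    have h5 : ((1 + ‖(t : ℂ) * I - π.μ j‖) / 2) ^ r ≤ (1 + ‖z‖) ^ r :=
      Real.rpow_le_rpow (by positivity) h4 hrpos.le
    rw [Real.div_rpow (by positivity) (by norm_num)] at h5
    have h6 : (2:ℝ) ^ r ≤ 2 := by
      calc (2:ℝ) ^ r ≤ 2 ^ (1:ℝ) := Real.rpow_le_rpow_of_exponent_le (by norm_num) (by linarith)
        _ = 2 := Real.rpow_one _
    have h7 : (1 + ‖(t : ℂ) * I - π.μ j‖) ^ r / 2 ≤ (1 + ‖(t : ℂ) * I - π.μ j‖) ^ r / 2 ^ r := by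
      apply div_le_div_of_nonneg_left (by positivity) (by positivity) h6
    calc c / 2 * (1 + ‖(t : ℂ) * I - π.μ j‖) ^ r
        = c * ((1 + ‖(t : ℂ) * I - π.μ j‖) ^ r / 2) := by ring
      _ ≤ c * (1 + ‖z‖) ^ r := by
        apply mul_le_mul_of_nonneg_left (h7.trans h5) hc.le
  have hP : 0 < (c / 2) ^ m := by positivity
  have hmain : (c / 2) ^ m * π.Q t ^ r * ‖π.L (1 / 2 + r + t * I)‖ ≤
      ‖π.L (1 / 2 - r + t * I)‖ := by
    rw [hfe]
    refine mul_le_mul_of_nonneg_right ?_ (norm_nonneg _)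
    have e : π.Q t ^ r = (π.N : ℝ) ^ r * (∏ j, (1 + ‖(t : ℂ) * I - π.μ j‖)) ^ r := by
      unfold LData.Q
      rw [Real.mul_rpow (by positivity) (Finset.prod_nonneg fun j _ => by positivity)]
    rw [e]
    calc (c / 2) ^ m * ((π.N : ℝ) ^ r * (∏ j, (1 + ‖(t : ℂ) * I - π.μ j‖)) ^ r)
        = (π.N : ℝ) ^ r * ((c / 2) ^ m * (∏ j, (1 + ‖(t : ℂ) * I - π.μ j‖)) ^ r) := by ring
      _ ≤ _ := by
        apply mul_le_mul_of_nonneg_left hprod (by positivity)
  have hQr : 0 < π.Q t ^ r := Real.rpow_pos_of_pos hQ1 r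
  have hB := norm_nonneg (π.L (1 / 2 - r + t * I))
  have hmain2 : ‖π.L (1 / 2 + r + t * I)‖ ≤
      ((c / 2) ^ m)⁻¹ * π.Q t ^ (-r) * ‖π.L (1 / 2 - r + t * I)‖ := by
    rw [Real.rpow_neg hQ1.le]
    generalize (c / 2) ^ m = P at hP hmain ⊢
    generalize ‖π.L (1 / 2 - r + t * I)‖ = B at hmain hB ⊢
    rw [show P⁻¹ * (π.Q t ^ r)⁻¹ * B = B / (P * π.Q t ^ r) by
        rw [div_eq_mul_inv, mul_inv]; ring]
    rw [le_div_iff₀ (by positivity)]
    linarith
  refine hmain2.trans ?_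
  have hQn : 0 ≤ π.Q t ^ (-r) := Real.rpow_nonneg hQ1.le _
  have h9 : ((c / 2) ^ m)⁻¹ ≤ max 1 ((c / 2) ^ m)⁻¹ := le_max_right _ _
  gcongr

end Pool.Agent.H51.DZ
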